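import Mathlib

namespace Pool.Agent.Results.MP_443384_al.TransversalCounterexample

open scoped Nat Classical in
/-- Perfect matchings compatible with block maps. -/
lemma card_compatible {α β Δ : Type} [Fintype α] [Fintype β] [Fintype Δ]
    (dα : α → Δ) (dβ : β → Δ) (e : α ≃ β) (he : ∀ a, dβ (e a) = dα a) :
    Fintype.card {σ : α ≃ β // ∀ a, dβ (σ a) = dα a} =
      ∏ δ, (Fintype.card {a // dα a = δ})! := by
  rw [← DomMulAct.stabilizer_card dα]
  refine Fintype.card_congr
    { toFun := fun σ => ⟨σ.1.trans e.symm, ?_⟩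
      invFun := fun τ => ⟨τ.1.trans e, ?_⟩
      left_inv := ?_
      right_inv := ?_ }
  · ext a
    have := he (e.symm (σ.1 a))
    simp only [Equiv.apply_symm_apply] at this
    simp [← this, σ.2 a]
  · intro a
    have := congrFun τ.2 a
    simp only [Function.comp_apply] at this
    simp [he, this]
  · intro σ
    ext a
    simp
  · intro τ
    ext a
    simp

/-- Partial transversals with respect to two maps, in functional form. -/
lemma card_sections {X α β : Type} [Finite X] [Finite α] [Finite β] (l : X → α) (r : X → β) :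
    Nat.card {T : Set X // (∀ a, ∃! t, t ∈ T ∧ l t = a) ∧ (∀ b, ∃! t, t ∈ T ∧ r t = b)} =
    Nat.card (Σ σ : α ≃ β, ∀ a, {x // l x = a ∧ r x = σ a}) := by
  symm
  refine Nat.card_congr (Equiv.ofBijective (fun s => ⟨Set.range fun a => (s.2 a).1, ?_, ?_⟩) ⟨?_, ?_⟩)
  · intro a
    refine ⟨(s.2 a).1, ⟨⟨a, rfl⟩, (s.2 a).2.1⟩, ?_⟩
    rintro _ ⟨⟨a', rfl⟩, h⟩
    have : a' = a := by rw [← h]; exact (s.2 a').2.1.symm
    rw [this]
  · intro b
    refine ⟨(s.2 (s.1.symm b)).1, ⟨⟨_, rfl⟩, ?_⟩, ?_⟩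
    · rw [(s.2 (s.1.symm b)).2.2]; simp
    · rintro _ ⟨⟨a', rfl⟩, h⟩
      have : a' = s.1.symm b := by
        rw [← h, Equiv.eq_symm_apply]; exact (s.2 a').2.2.symm
      rw [this]
  · rintro ⟨σ, s⟩ ⟨τ, t⟩ h
    have h1 : (Set.range fun a => (s a).1) = (Set.range fun a => (t a).1) := congrArg Subtype.val h
    have h2 : ∀ a, (s a).1 = (t a).1 := by
      intro a
      have : (s a).1 ∈ Set.range fun a => (t a).1 := h1 ▸ ⟨a, rfl⟩
      obtain ⟨a', h3⟩ := this
      have h3' : (t a').1 = (s a).1 := h3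
      have : a' = a := by rw [← (s a).2.1, ← h3', (t a').2.1]
      rw [← h3', this]
    have h3 : σ = τ := by
      ext a
      rw [← (s a).2.2, ← (t a).2.2, h2 a]
    subst h3
    congr 1
    funext a
    exact Subtype.ext (h2 a)
  · rintro ⟨T, h1, h2⟩
    have h1c := h1
    have h2c := h2
    choose f hf huf using h1c
    choose g hg hug using h2c
    let σ : α ≃ β :=
      { toFun := fun a => r (f a)
        invFun := fun b => l (g b)
        left_inv := by
          intro a
          have := hug (r (f a)) (f a) ⟨(hf a).1, rfl⟩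
          simp only at this ⊢
          rw [← this]
          exact (hf a).2
        right_inv := by
          intro b
          have := huf (l (g b)) (g b) ⟨(hg b).1, rfl⟩
          simp only at this ⊢
          rw [← this]
          exact (hg b).2 }
    refine ⟨⟨σ, fun a => ⟨f a, (hf a).2, rfl⟩⟩, ?_⟩
    apply Subtype.ext
    ext x
    constructor
    · rintro ⟨a, rfl⟩
      exact (hf a).1
    · intro hx
      exact ⟨l x, (huf (l x) x ⟨hx, rfl⟩).symm⟩

open scoped Nat Classical in
lemma card_blocks {X α β Δ : Type} [Fintype X] [Fintype α] [Fintype β] [Fintype Δ]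
    (l : X → α) (r : X → β) (dα : α → Δ) (dβ : β → Δ) (hd : ∀ x, dα (l x) = dβ (r x))
    (m : Δ → ℕ) (hm : ∀ a b, dα a = dβ b → Fintype.card {x // l x = a ∧ r x = b} = m (dα a))
    (e : α ≃ β) (he : ∀ a, dβ (e a) = dα a) :
    Nat.card {T : Set X // (∀ a, ∃! t, t ∈ T ∧ l t = a) ∧ (∀ b, ∃! t, t ∈ T ∧ r t = b)} =
      ∏ δ, ((Fintype.card {a // dα a = δ})! * m δ ^ (Fintype.card {a // dα a = δ})) := by
  rw [card_sections, Nat.card_eq_fintype_card, Fintype.card_sigma]
  have h1 : ∀ σ : α ≃ β, Fintype.card (∀ a, {x // l x = a ∧ r x = σ a}) =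
      if (∀ a, dβ (σ a) = dα a) then ∏ δ, m δ ^ (Fintype.card {a // dα a = δ}) else 0 := by
    intro σ
    rw [Fintype.card_pi]
    split_ifs with h
    · rw [Finset.prod_congr rfl (fun a _ => hm a (σ a) (h a).symm)]
      rw [← Fintype.prod_fiberwise dα]
      refine Finset.prod_congr rfl fun δ _ => ?_
      rw [Finset.prod_congr rfl (g := fun _ => m δ) (fun a _ => by rw [a.2])]
      simp
    · push Not at h
      obtain ⟨a, ha⟩ := h
      apply Finset.prod_eq_zero (Finset.mem_univ a)
      rw [Fintype.card_eq_zero_iff]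
      refine ⟨fun x => ha ?_⟩
      rw [← x.2.2, ← hd, x.2.1]
  rw [Finset.sum_congr rfl (fun σ _ => h1 σ), ← Finset.sum_filter, Finset.sum_const,
    Finset.prod_mul_distrib, ← card_compatible dα dβ e he, smul_eq_mul, Fintype.card_subtype]


open scoped Nat in
lemma card_blocks' {X α β Δ : Type} [Finite X] [Finite α] [Finite β] [Fintype Δ]
    (l : X → α) (r : X → β) (dα : α → Δ) (dβ : β → Δ) (hd : ∀ x, dα (l x) = dβ (r x))
    (m : Δ → ℕ) (hm : ∀ a b, dα a = dβ b → Nat.card {x // l x = a ∧ r x = b} = m (dα a))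
    (e : α ≃ β) (he : ∀ a, dβ (e a) = dα a) :
    Nat.card {T : Set X // (∀ a, ∃! t, t ∈ T ∧ l t = a) ∧ (∀ b, ∃! t, t ∈ T ∧ r t = b)} =
      ∏ δ, ((Nat.card {a // dα a = δ})! * m δ ^ (Nat.card {a // dα a = δ})) := by
  classical
  have : Fintype X := Fintype.ofFinite _
  have : Fintype α := Fintype.ofFinite _
  have : Fintype β := Fintype.ofFinite _
  rw [card_blocks l r dα dβ hd m _ e he]
  · simp only [Nat.card_eq_fintype_card]
  · intro a b hab
    rw [← hm a b hab, Nat.card_eq_fintype_card]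

section Groups

variable {G : Type} [Group G] (H : Subgroup G)

/-- `T` meets every left coset `g H` in exactly one point. -/
def IsLeftTransversal (T : Set G) : Prop := ∀ g : G, ∃! t : G, t ∈ T ∧ g⁻¹ * t ∈ H

/-- `T` meets every right coset `H g` in exactly one point. -/
def IsRightTransversal (T : Set G) : Prop := ∀ g : G, ∃! t : G, t ∈ T ∧ t * g⁻¹ ∈ H

/-- `P_G(H)`: the number of double transversals of `H` divided by `|H| ^ (G : H)`. -/
noncomputable def transversalProb : ℝ :=
  (Nat.card {T : Set G // IsLeftTransversal H T ∧ IsRightTransversal H T} : ℝ) /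
    (Nat.card H : ℝ) ^ H.index

/-- `tp(G)`: the minimum (infimum over the finite set) of `P_G(H)` over all subgroups `H`. -/
noncomputable def tp (G : Type) [Group G] : ℝ := ⨅ H : Subgroup G, transversalProb H

/-- The number of elements in `g H ∩ H g`. -/
noncomputable def mm (g : G) : ℕ := Nat.card {x : G // g⁻¹ * x ∈ H ∧ x * g⁻¹ ∈ H}

lemma mm_eq (g g1 g2 h1 k1 h2 k2 : G) (hh1 : h1 ∈ H) (hk1 : k1 ∈ H) (hh2 : h2 ∈ H) (hk2 : k2 ∈ H)
    (e1 : g1 = h1 * g * k1) (e2 : g2 = h2 * g * k2) :
    Nat.card {x : G // g1⁻¹ * x ∈ H ∧ x * g2⁻¹ ∈ H} = mm H g := by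
  unfold mm
  refine Nat.card_congr ((Equiv.mulLeft h1⁻¹).trans (Equiv.mulRight k2⁻¹) |>.subtypeEquiv ?_)
  intro x
  simp only [Equiv.trans_apply, Equiv.coe_mulLeft, Equiv.coe_mulRight]
  subst e1 e2
  have a1 : (h1 * g * k1)⁻¹ * x ∈ H ↔ g⁻¹ * (h1⁻¹ * x * k2⁻¹) ∈ H := by
    rw [show (h1 * g * k1)⁻¹ * x = k1⁻¹ * (g⁻¹ * (h1⁻¹ * x * k2⁻¹)) * k2 by group]
    rw [Subgroup.mul_mem_cancel_right _ hk2, Subgroup.mul_mem_cancel_left _ (H.inv_mem hk1)]
  have a2 : x * (h2 * g * k2)⁻¹ ∈ H ↔ h1⁻¹ * x * k2⁻¹ * g⁻¹ ∈ H := by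
    rw [show x * (h2 * g * k2)⁻¹ = h1 * (h1⁻¹ * x * k2⁻¹ * g⁻¹) * h2⁻¹ by group]
    rw [Subgroup.mul_mem_cancel_right _ (H.inv_mem hh2), Subgroup.mul_mem_cancel_left _ hh1]
  rw [a1, a2]

/-- The right cosets. -/
abbrev RQ : Type := Quotient (QuotientGroup.rightRel H)

/-- The double cosets. -/
abbrev DQ : Type := DoubleCoset.Quotient (H : Set G) (H : Set G)

/-- From left cosets to double cosets. -/
def toDl : G ⧸ H → DQ H := Quotient.lift (fun g => DoubleCoset.mk H H g) (by
  intro a b hab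
  have hab' : a⁻¹ * b ∈ H := QuotientGroup.leftRel_apply.mp hab
  rw [DoubleCoset.eq]
  exact ⟨1, H.one_mem, a⁻¹ * b, hab', by group⟩)

/-- From right cosets to double cosets. -/
def toDr : RQ H → DQ H := Quotient.lift (fun g => DoubleCoset.mk H H g) (by
  intro a b hab
  have hab' : b * a⁻¹ ∈ H := QuotientGroup.rightRel_apply.mp hab
  rw [DoubleCoset.eq]
  exact ⟨b * a⁻¹, hab', 1, H.one_mem, by group⟩)

/-- The left coset of `g`. -/
def lq (g : G) : G ⧸ H := QuotientGroup.mk g

/-- The right coset of `g`. -/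
def rq (g : G) : RQ H := Quotient.mk _ g

lemma lq_eq {x g : G} : lq H x = lq H g ↔ g⁻¹ * x ∈ H := by
  unfold lq
  rw [eq_comm, QuotientGroup.eq]

lemma rq_eq {x g : G} : rq H x = rq H g ↔ x * g⁻¹ ∈ H := by
  unfold rq
  rw [eq_comm, Quotient.eq, QuotientGroup.rightRel_apply]

lemma toD_eq (x : G) : toDl H (lq H x) = toDr H (rq H x) := rfl

lemma lq_surj : Function.Surjective (lq H) := Quotient.mk_surjective
lemma rq_surj : Function.Surjective (rq H) := Quotient.mk_surjective

lemma card_lr (a : G ⧸ H) (b : RQ H) (hab : toDl H a = toDr H b) :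
    Nat.card {x // lq H x = a ∧ rq H x = b} = mm H (toDl H a).out := by
  obtain ⟨g, rfl⟩ := lq_surj H a
  obtain ⟨g', rfl⟩ := rq_surj H b
  have h1 : DoubleCoset.mk H H (toDl H (lq H g)).out = DoubleCoset.mk H H g :=
    DoubleCoset.out_eq' H H _
  have h2 : DoubleCoset.mk H H (toDl H (lq H g)).out = DoubleCoset.mk H H g' :=
    h1.trans hab
  rw [DoubleCoset.eq] at h1 h2
  obtain ⟨x1, hx1, y1, hy1, e1⟩ := h1
  obtain ⟨x2, hx2, y2, hy2, e2⟩ := h2
  rw [← mm_eq H _ g g' x1 y1 x2 y2 hx1 hy1 hx2 hy2 e1 e2]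
  simp only [lq_eq, rq_eq]

lemma mm_out (g : G) : mm H (toDl H (lq H g)).out = mm H g := by
  rw [← card_lr H (lq H g) (rq H g) rfl]
  unfold mm
  simp only [lq_eq, rq_eq]

lemma card_l (a : G ⧸ H) : Nat.card {x // lq H x = a} = Nat.card H := by
  obtain ⟨g, rfl⟩ := lq_surj H a
  refine Nat.card_congr ((Equiv.mulLeft g⁻¹).subtypeEquiv ?_)
  intro x
  rw [lq_eq]
  rfl

lemma card_r (b : RQ H) : Nat.card {x // rq H x = b} = Nat.card H := by
  obtain ⟨g, rfl⟩ := rq_surj H b
  refine Nat.card_congr ((Equiv.mulRight g⁻¹).subtypeEquiv ?_)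
  intro x
  rw [rq_eq]
  rfl

lemma card_fiber_sum {X β : Type} [Finite X] [Fintype β] (p : X → Prop) (r : X → β) :
    Nat.card {x // p x} = ∑ b, Nat.card {x // p x ∧ r x = b} := by
  classical
  have : Fintype X := Fintype.ofFinite X
  have e : {x // p x} ≃ Σ b, {x // p x ∧ r x = b} :=
    { toFun := fun x => ⟨r x.1, x.1, x.2, rfl⟩
      invFun := fun y => ⟨y.2.1, y.2.2.1⟩
      left_inv := fun x => rfl
      right_inv := by
        rintro ⟨b, x, hx, rfl⟩
        rfl }
  rw [Nat.card_congr e, Nat.card_sigma]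

/-- Number of left cosets in a double coset. -/
noncomputable def kk (δ : DQ H) : ℕ := Nat.card {a // toDl H a = δ}

lemma toDl_surj (δ : DQ H) : ∃ g, toDl H (lq H g) = δ := ⟨δ.out, DoubleCoset.out_eq' H H δ⟩

lemma kk_mul [Finite G] (δ : DQ H) : kk H δ * mm H δ.out = Nat.card H := by
  classical
  obtain ⟨g, rfl⟩ := toDl_surj H δ
  have : Fintype (G ⧸ H) := Fintype.ofFinite _
  rw [← card_r H (rq H g), card_fiber_sum (fun x => rq H x = rq H g) (lq H)]
  have h1 : ∀ a : G ⧸ H, Nat.card {x // rq H x = rq H g ∧ lq H x = a} =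
      if toDl H a = toDl H (lq H g) then mm H (toDl H (lq H g)).out else 0 := by
    intro a
    split_ifs with h
    · rw [← h, ← card_lr H a (rq H g) h]
      exact Nat.card_congr (Equiv.subtypeEquivRight fun x => and_comm)
    · rw [Nat.card_eq_zero]
      left
      refine ⟨fun x => h ?_⟩
      rw [← x.2.2, toD_eq, x.2.1, ← toD_eq]
  rw [Finset.sum_congr rfl (fun a _ => h1 a), ← Finset.sum_filter, Finset.sum_const, smul_eq_mul,
    kk, Nat.card_eq_fintype_card, Fintype.card_subtype]

lemma kk_mul' [Finite G] (δ : DQ H) :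
    Nat.card {b // toDr H b = δ} * mm H δ.out = Nat.card H := by
  classical
  obtain ⟨g, rfl⟩ := toDl_surj H δ
  have : Fintype (RQ H) := Fintype.ofFinite _
  rw [← card_l H (lq H g), card_fiber_sum (fun x => lq H x = lq H g) (rq H)]
  have h1 : ∀ b : RQ H, Nat.card {x // lq H x = lq H g ∧ rq H x = b} =
      if toDr H b = toDl H (lq H g) then mm H (toDl H (lq H g)).out else 0 := by
    intro b
    split_ifs with h
    · rw [← card_lr H (lq H g) b h.symm]
    · rw [Nat.card_eq_zero]
      left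
      refine ⟨fun x => h ?_⟩
      rw [← x.2.2, ← toD_eq, x.2.1]
  rw [Finset.sum_congr rfl (fun a _ => h1 a), ← Finset.sum_filter, Finset.sum_const, smul_eq_mul,
    Nat.card_eq_fintype_card, Fintype.card_subtype]

lemma kk_eq [Finite G] (δ : DQ H) : Nat.card {b // toDr H b = δ} = kk H δ := by
  have h1 := kk_mul H δ
  have h2 := kk_mul' H δ
  have h3 : 0 < Nat.card H := Nat.card_pos
  have h4 : 0 < mm H δ.out := by
    rcases Nat.eq_zero_or_pos (mm H δ.out) with h | h
    · rw [h, mul_zero] at h1; omega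
    · exact h
  exact Nat.eq_of_mul_eq_mul_right h4 (h2.trans h1.symm)

open scoped Nat in
lemma card_double [Finite G] [Fintype (DQ H)] :
    Nat.card {T : Set G // IsLeftTransversal H T ∧ IsRightTransversal H T} =
      ∏ δ : DQ H, ((kk H δ)! * mm H δ.out ^ (kk H δ)) := by
  classical
  have : Fintype G := Fintype.ofFinite _
  have : Fintype (G ⧸ H) := Fintype.ofFinite _
  have : Fintype (RQ H) := Fintype.ofFinite _
  have he : ∀ δ, Nonempty ({a // toDl H a = δ} ≃ {b // toDr H b = δ}) := by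
    intro δ
    exact Finite.card_eq.mp (kk_eq H δ).symm
  let e := fun δ => (he δ).some
  have key := card_blocks' (lq H) (rq H) (toDl H) (toDr H) (fun x => rfl)
    (fun δ => mm H δ.out) (fun a b hab => card_lr H a b hab) (Equiv.ofFiberEquiv e)
      (fun a => Equiv.ofFiberEquiv_map e a)
  have h1 : Nat.card {T : Set G // IsLeftTransversal H T ∧ IsRightTransversal H T} =
      Nat.card {T : Set G // (∀ a, ∃! t, t ∈ T ∧ lq H t = a) ∧ (∀ b, ∃! t, t ∈ T ∧ rq H t = b)} := by
    refine Nat.card_congr (Equiv.subtypeEquivRight fun T => and_congr ?_ ?_)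
    · rw [(lq_surj H).forall]
      simp only [lq_eq]
      rfl
    · rw [(rq_surj H).forall]
      simp only [rq_eq]
      rfl
  rw [h1, key]
  rfl

lemma card_fiber_D [Finite G] (δ : DQ H) :
    Nat.card {g // toDl H (lq H g) = δ} = kk H δ * Nat.card H := by
  classical
  have : Fintype (G ⧸ H) := Fintype.ofFinite _
  rw [card_fiber_sum (fun x => toDl H (lq H x) = δ) (lq H)]
  have h1 : ∀ a : G ⧸ H, Nat.card {x // toDl H (lq H x) = δ ∧ lq H x = a} =
      if toDl H a = δ then Nat.card H else 0 := by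
    intro a
    split_ifs with h
    · rw [← card_l H a]
      refine Nat.card_congr (Equiv.subtypeEquivRight fun x => ?_)
      constructor
      · exact fun h => h.2
      · intro hx
        exact ⟨by rw [hx]; exact h, hx⟩
    · rw [Nat.card_eq_zero]
      left
      refine ⟨fun x => h ?_⟩
      rw [← x.2.2, x.2.1]
  rw [Finset.sum_congr rfl (fun a _ => h1 a), ← Finset.sum_filter, Finset.sum_const, smul_eq_mul,
    kk, Nat.card_eq_fintype_card (α := {a // toDl H a = δ}), Fintype.card_subtype]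

lemma index_eq [Finite G] [Fintype (DQ H)] : H.index = ∑ δ : DQ H, kk H δ := by
  classical
  have h := card_fiber_sum (X := G ⧸ H) (fun _ => True) (toDl H)
  have h1 : Nat.card {x : G ⧸ H // True} = H.index :=
    Nat.card_congr (Equiv.subtypeUnivEquiv fun _ => trivial)
  rw [← h1, h]
  refine Finset.sum_congr rfl fun δ _ => ?_
  exact Nat.card_congr (Equiv.subtypeEquivRight fun x => by simp)

open scoped Nat in
/-- `k! / k ^ k`. -/
noncomputable def cc (k : ℕ) : ℝ := (k ! : ℝ) / (k : ℝ) ^ k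

lemma cc_pos (k : ℕ) : 0 < cc k := by
  unfold cc
  rcases Nat.eq_zero_or_pos k with rfl | h
  · simp
  · positivity

lemma prob_eq [Finite G] [Fintype (DQ H)] : transversalProb H = ∏ δ : DQ H, cc (kk H δ) := by
  unfold transversalProb
  rw [card_double, index_eq, ← Finset.prod_pow_eq_pow_sum, Nat.cast_prod,
    ← Finset.prod_div_distrib]
  refine Finset.prod_congr rfl fun δ _ => ?_
  have h1 := kk_mul H δ
  have h3 : 0 < Nat.card H := Nat.card_pos
  have h4 : 0 < mm H δ.out := by
    rcases Nat.eq_zero_or_pos (mm H δ.out) with h | h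
    · rw [h, mul_zero] at h1; omega
    · exact h
  have h5 : 0 < kk H δ := by
    rcases Nat.eq_zero_or_pos (kk H δ) with h | h
    · rw [h, zero_mul] at h1; omega
    · exact h
  rw [← h1]
  unfold cc
  push_cast
  have h4' : (mm H δ.out : ℝ) ≠ 0 := by positivity
  have h5' : (kk H δ : ℝ) ≠ 0 := by positivity
  field_simp
  rw [mul_pow, mul_comm]

lemma prob_pos [Finite G] : 0 < transversalProb H := by
  classical
  have : Fintype G := Fintype.ofFinite _
  have : Fintype (DQ H) := Fintype.ofSurjective (fun g => toDl H (lq H g)) (toDl_surj H)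
  rw [prob_eq]
  exact Finset.prod_pos fun δ _ => cc_pos _

lemma log_prob [Fintype G] : Real.log (transversalProb H) =
    ∑ g : G, Real.log (cc (kk H (toDl H (lq H g)))) /
      ((kk H (toDl H (lq H g)) : ℝ) * Nat.card H) := by
  classical
  have : Fintype (DQ H) := Fintype.ofSurjective (fun g => toDl H (lq H g)) (toDl_surj H)
  rw [prob_eq, Real.log_prod (fun δ _ => (cc_pos _).ne')]
  rw [← Finset.sum_fiberwise (s := Finset.univ) (g := fun g => toDl H (lq H g))]
  refine Finset.sum_congr rfl fun δ _ => ?_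
  rw [Finset.sum_congr rfl (g := fun _ => Real.log (cc (kk H δ)) / ((kk H δ : ℝ) * Nat.card H))]
  · rw [Finset.sum_const, nsmul_eq_mul]
    have h1 : (Finset.univ.filter fun g => toDl H (lq H g) = δ).card = kk H δ * Nat.card H := by
      rw [← card_fiber_D, Nat.card_eq_fintype_card (α := {g : G // toDl H (lq H g) = δ}),
        Fintype.card_subtype]
    rw [h1]
    have h2 := kk_mul H δ
    have h3 : 0 < Nat.card H := Nat.card_pos
    have h5 : 0 < kk H δ := by
      rcases Nat.eq_zero_or_pos (kk H δ) with h | h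
      · rw [h, zero_mul] at h2; omega
      · exact h
    push_cast
    field_simp
  · intro g hg
    rw [(Finset.mem_filter.mp hg).2]

lemma mm_conj (g : G) : mm H g = Nat.card {h : G // h ∈ H ∧ g * h * g⁻¹ ∈ H} := by
  unfold mm
  refine Nat.card_congr ((Equiv.mulLeft g⁻¹).subtypeEquiv ?_)
  intro x
  simp only [Equiv.coe_mulLeft, mul_inv_cancel_left]

/-- The common size `|H : H ∩ g H g⁻¹|`. -/
noncomputable def kap (g : G) : ℕ := kk H (toDl H (lq H g))

lemma kap_mul [Finite G] (g : G) : kap H g * mm H g = Nat.card H := by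
  rw [kap, ← mm_out, kk_mul]

lemma log_prob' [Fintype G] : Real.log (transversalProb H) =
    ∑ g : G, Real.log (cc (kap H g)) / ((kap H g : ℝ) * Nat.card H) := log_prob H

lemma mm_ge_core [Finite G] (g : G) : Nat.card H.normalCore ≤ mm H g := by
  rw [mm_conj]
  refine Nat.card_le_card_of_injective
    (fun n : H.normalCore => (⟨n.1, H.normalCore_le n.2,
      H.normalCore_le (H.normalCore_normal.conj_mem n.1 n.2 g)⟩ :
        {h : G // h ∈ H ∧ g * h * g⁻¹ ∈ H})) ?_
  intro a b hab
  exact Subtype.ext (congrArg (fun x => x.1) hab)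

lemma kap_pos [Finite G] (g : G) : 0 < kap H g := by
  have h1 := kap_mul H g
  have h3 : 0 < Nat.card H := Nat.card_pos
  rcases Nat.eq_zero_or_pos (kap H g) with h | h
  · rw [h, zero_mul] at h1; omega
  · exact h

lemma kap_le [Finite G] (h : H.normalCore.relIndex H ≤ 2) (g : G) : kap H g ≤ 2 := by
  have h1 := kap_mul H g
  have h2 := mm_ge_core H g
  have h3 : H.normalCore.relIndex H * Nat.card H.normalCore = Nat.card H := by
    have := Subgroup.card_mul_index (H.normalCore.subgroupOf H)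
    rw [← this, Subgroup.relIndex, mul_comm]
    congr 1
    exact (Nat.card_congr (Subgroup.subgroupOfEquivOfLe H.normalCore_le).toEquiv).symm
  have h4 : 0 < Nat.card H := Nat.card_pos
  by_contra hk
  have h5 : 0 < mm H g := by
    rcases Nat.eq_zero_or_pos (mm H g) with h | h
    · rw [h, mul_zero] at h1; omega
    · exact h
  have h6 : 3 * mm H g ≤ kap H g * mm H g := Nat.mul_le_mul_right _ (by omega)
  have h7 : H.normalCore.relIndex H * Nat.card H.normalCore ≤ 2 * mm H g :=
    Nat.mul_le_mul h h2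
  omega

lemma cc_one : cc 1 = 1 := by simp [cc]
lemma cc_two : cc 2 = 1 / 2 := by norm_num [cc, Nat.factorial]
lemma cc_four : cc 4 = 3 / 32 := by norm_num [cc, Nat.factorial]

/-- If `(H : core H) ≤ 2` then every summand is at least `-log 2 / (2 |H|)`. -/
lemma term_ge [Finite G] (h : H.normalCore.relIndex H ≤ 2) (g : G) :
    -(Real.log 2 / (2 * Nat.card H)) ≤
      Real.log (cc (kap H g)) / ((kap H g : ℝ) * Nat.card H) := by
  have h1 := kap_le H h g
  have h2 := kap_pos H g
  have h4 : (0 : ℝ) < Nat.card H := by exact_mod_cast Nat.card_pos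
  have h5 : 0 < Real.log 2 := Real.log_pos (by norm_num)
  have h6 : kap H g = 1 ∨ kap H g = 2 := by omega
  rcases h6 with h6 | h6
  · rw [h6, cc_one, Real.log_one, zero_div]
    have : 0 < Real.log 2 / (2 * Nat.card H) := by positivity
    linarith
  · rw [h6, cc_two, one_div, Real.log_inv, neg_div]
    push_cast
    exact le_refl _

end Groups

/-- Powers of the automorphism `(a, b) ↦ (b, a + 2 b)` of `(ℤ/4)²`, which has order 4. -/
def act (q : ZMod 8) (v : ZMod 4 × ZMod 4) : ZMod 4 × ZMod 4 :=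
  if q = 0 ∨ q = 4 then v
  else if q = 1 ∨ q = 5 then (v.2, v.1 + 2 * v.2)
  else if q = 2 ∨ q = 6 then (v.1 + 2 * v.2, 2 * v.1 + v.2)
  else (2 * v.1 + v.2, v.1)

lemma act_add : ∀ (q : ZMod 8) (v w : ZMod 4 × ZMod 4), act q (v + w) = act q v + act q w := by
  decide +kernel

lemma act_act : ∀ (q r : ZMod 8) (v : ZMod 4 × ZMod 4), act q (act r v) = act (q + r) v := by
  decide +kernel

lemma act_zero (v : ZMod 4 × ZMod 4) : act 0 v = v := by
  simp [act]

lemma act_0 (q : ZMod 8) : act q 0 = 0 := by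
  revert q; decide

/-- The group `(ℤ/4)² ⋊ ℤ/8` of order 128. -/
def Gp : Type := (ZMod 4 × ZMod 4) × ZMod 8

namespace Gp

instance : Fintype Gp := inferInstanceAs (Fintype ((ZMod 4 × ZMod 4) × ZMod 8))
instance : DecidableEq Gp := inferInstanceAs (DecidableEq ((ZMod 4 × ZMod 4) × ZMod 8))

instance : Mul Gp := ⟨fun x y => (x.1 + act x.2 y.1, x.2 + y.2)⟩
instance : One Gp := ⟨((0, 0), 0)⟩
instance : Inv Gp := ⟨fun x => (act (-x.2) (-x.1), -x.2)⟩

lemma mul_def (x y : Gp) : x * y = (x.1 + act x.2 y.1, x.2 + y.2) := rfl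
lemma one_def : (1 : Gp) = ((0, 0), 0) := rfl
lemma inv_def (x : Gp) : x⁻¹ = (act (-x.2) (-x.1), -x.2) := rfl

instance instGroup : Group Gp := Group.ofLeftAxioms
  (by
    intro x y z
    show (x.1 + act x.2 y.1 + act (x.2 + y.2) z.1, x.2 + y.2 + z.2) =
      (x.1 + act x.2 (y.1 + act y.2 z.1), x.2 + (y.2 + z.2))
    rw [act_add, act_act, add_assoc, add_assoc])
  (by
    intro x
    apply Prod.ext
    · show (0, 0) + act 0 x.1 = x.1
      rw [act_zero]; exact zero_add _
    · show 0 + x.2 = x.2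
      exact zero_add _)
  (by
    intro x
    apply Prod.ext
    · show act (-x.2) (-x.1) + act (-x.2) x.1 = 0
      rw [← act_add, neg_add_cancel, act_0]
    · show -x.2 + x.2 = 0
      exact neg_add_cancel _)


/-- The element `(v, 0)`. -/
def ofV (v : ZMod 4 × ZMod 4) : Gp := (v, 0)

lemma conj_ofV (g : Gp) (v : ZMod 4 × ZMod 4) : g * ofV v * g⁻¹ = ofV (act g.2 v) := by
  apply Prod.ext
  · show g.1 + act g.2 v + act (g.2 + 0) (act (-g.2) (-g.1)) = act g.2 v
    rw [add_zero, act_act, add_neg_cancel, act_zero]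
    abel
  · show g.2 + 0 + -g.2 = 0
    simp

/-- Elements of order dividing 2 commute with every element whose last coordinate is even. -/
lemma comm_of_sq : ∀ (s g : (ZMod 4 × ZMod 4) × ZMod 8), s.1 + act s.2 s.1 = 0 → s.2 + s.2 = 0 →
    (g.2 = 0 ∨ g.2 = 2 ∨ g.2 = 4 ∨ g.2 = 6) → g.1 + act g.2 s.1 = s.1 + act s.2 g.1 := by
  decide +kernel

lemma card_even : (Finset.univ.filter fun g : Gp => (g.2 = 0 ∨ g.2 = 2 ∨ g.2 = 4 ∨ g.2 = 6)).card = 64 := by
  decide +kernel

end Gp


namespace Gp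

/-- The subgroup of order 4 generated by `((1, 0), 0)`. -/
def H0 : Subgroup Gp where
  carrier := {g | g.1.2 = 0 ∧ g.2 = 0}
  mul_mem' := by
    rintro x y ⟨h1, h2⟩ ⟨h3, h4⟩
    refine ⟨?_, ?_⟩
    · show (x.1 + act x.2 y.1).2 = 0
      rw [h2, act_zero]
      show x.1.2 + y.1.2 = 0
      rw [h1, h3, add_zero]
    · show x.2 + y.2 = 0
      rw [h2, h4, add_zero]
  one_mem' := ⟨rfl, rfl⟩
  inv_mem' := by
    rintro x ⟨h1, h2⟩
    refine ⟨?_, ?_⟩
    · show (act (-x.2) (-x.1)).2 = 0
      rw [h2, neg_zero, act_zero]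
      show -x.1.2 = 0
      rw [h1, neg_zero]
    · show -x.2 = 0
      rw [h2, neg_zero]

lemma mem_H0 (g : Gp) : g ∈ H0 ↔ g.1.2 = 0 ∧ g.2 = 0 := Iff.rfl

lemma card_aux : ∀ q : ZMod 8, Fintype.card {h : (ZMod 4 × ZMod 4) × ZMod 8 //
    (h.1.2 = 0 ∧ h.2 = 0) ∧ (act q h.1).2 = 0} =
    if q = 0 ∨ q = 4 then 4 else if q = 2 ∨ q = 6 then 2 else 1 := by
  decide +kernel

lemma mm_H0 (g : Gp) : mm H0 g = if g.2 = 0 ∨ g.2 = 4 then 4 else
    if g.2 = 2 ∨ g.2 = 6 then 2 else 1 := by
  rw [mm_conj, ← card_aux g.2, ← Nat.card_eq_fintype_card]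
  refine Nat.card_congr (Equiv.subtypeEquivRight fun h => ?_)
  rw [mem_H0]
  refine and_congr_right fun hh => ?_
  have : h = ofV h.1 := Prod.ext rfl hh.2
  rw [this, conj_ofV, mem_H0]
  exact ⟨fun h => h.1, fun h => ⟨h, rfl⟩⟩

lemma card_H0 : Nat.card H0 = 4 := by
  have h : Nat.card H0 = Nat.card {h : (ZMod 4 × ZMod 4) × ZMod 8 //
    (h.1.2 = 0 ∧ h.2 = 0) ∧ (act 0 h.1).2 = 0} := by
    refine Nat.card_congr (Equiv.subtypeEquivRight fun h => ?_)
    rw [mem_H0, act_zero]
    tauto
  rw [h, Nat.card_eq_fintype_card, card_aux]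
  rfl

/-- The contribution of `g` to `log P(H0)` depends on the last coordinate only. -/
noncomputable def tt (q : ZMod 8) : ℝ :=
  if q = 0 ∨ q = 4 then 0 else if q = 2 ∨ q = 6 then Real.log (cc 2) / 8
  else Real.log (cc 4) / 16

lemma term_H0 (g : Gp) : Real.log (cc (kap H0 g)) / ((kap H0 g : ℝ) * Nat.card H0) = tt g.2 := by
  have h1 := kap_mul H0 g
  rw [card_H0, mm_H0] at h1
  rw [card_H0]
  unfold tt
  split_ifs at h1 ⊢ with c1 c2
  · have : kap H0 g = 1 := by omega
    rw [this, cc_one, Real.log_one, zero_div]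
  · have : kap H0 g = 2 := by omega
    rw [this]
    norm_num
  · have : kap H0 g = 4 := by omega
    rw [this]
    norm_num

lemma log_H0 : Real.log (transversalProb H0) = 4 * Real.log (cc 2) + 4 * Real.log (cc 4) := by
  rw [log_prob', Finset.sum_congr rfl (fun g _ => term_H0 g)]
  have : ∑ g : Gp, tt g.2 = ∑ v : ZMod 4 × ZMod 4, ∑ q : ZMod 8, tt q :=
    Fintype.sum_prod_type (fun x : (ZMod 4 × ZMod 4) × ZMod 8 => tt x.2)
  rw [this, Finset.sum_const]
  have h2 : ∑ q : ZMod 8, tt q = tt 0 + tt 1 + tt 2 + tt 3 + tt 4 + tt 5 + tt 6 + tt 7 :=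
    Fin.sum_univ_eight (fun q : Fin 8 => tt q)
  have h3 : (Finset.univ : Finset (ZMod 4 × ZMod 4)).card = 16 := rfl
  rw [h2, h3]
  have d0 : tt 0 = 0 := if_pos (by decide)
  have d4 : tt 4 = 0 := if_pos (by decide)
  have d2 : tt 2 = Real.log (cc 2) / 8 := by rw [tt, if_neg (by decide), if_pos (by decide)]
  have d6 : tt 6 = Real.log (cc 2) / 8 := by rw [tt, if_neg (by decide), if_pos (by decide)]
  have d1 : tt 1 = Real.log (cc 4) / 16 := by rw [tt, if_neg (by decide), if_neg (by decide)]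
  have d3 : tt 3 = Real.log (cc 4) / 16 := by rw [tt, if_neg (by decide), if_neg (by decide)]
  have d5 : tt 5 = Real.log (cc 4) / 16 := by rw [tt, if_neg (by decide), if_neg (by decide)]
  have d7 : tt 7 = Real.log (cc 4) / 16 := by rw [tt, if_neg (by decide), if_neg (by decide)]
  rw [d0, d1, d2, d3, d4, d5, d6, d7]
  simp only [nsmul_eq_mul]
  push_cast
  ring

lemma card_Gp : Nat.card Gp = 128 := by
  rw [Nat.card_eq_fintype_card]
  rfl

/-- Lower bound for all subgroups whose core has index at most 2. -/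
lemma log_ge (K : Subgroup Gp) (h : K.normalCore.relIndex K ≤ 2) :
    -(16 * Real.log 2) ≤ Real.log (transversalProb K) := by
  have h5 : 0 < Real.log 2 := Real.log_pos (by norm_num)
  have hdvd : Nat.card K ∣ 128 := card_Gp ▸ Subgroup.card_subgroup_dvd_card K
  have hKpos : 0 < Nat.card K := Nat.card_pos
  rw [log_prob']
  by_cases hK : 4 ≤ Nat.card K
  · have h1 : ∑ g : Gp, (-(Real.log 2 / 8)) ≤
        ∑ g : Gp, Real.log (cc (kap K g)) / ((kap K g : ℝ) * Nat.card K) := by
      refine Finset.sum_le_sum fun g _ => ?_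
      refine le_trans ?_ (term_ge K h g)
      have : (4 : ℝ) ≤ Nat.card K := by exact_mod_cast hK
      have h8 : (8 : ℝ) ≤ 2 * Nat.card K := by linarith
      have : Real.log 2 / (2 * Nat.card K) ≤ Real.log 2 / 8 :=
        div_le_div_of_nonneg_left h5.le (by norm_num) h8
      linarith
    refine le_trans ?_ h1
    rw [Finset.sum_const]
    have : (Finset.univ : Finset Gp).card = 128 := rfl
    rw [this, nsmul_eq_mul]
    push_cast
    linarith
  · have hK2 : Nat.card K = 1 ∨ Nat.card K = 2 := by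
      have h3 : Nat.card K ≠ 3 := by
        intro h3
        rw [h3] at hdvd
        omega
      omega
    -- elements of even last coordinate commute with all elements of `K`
    have hsq : ∀ k ∈ K, k * k = 1 := by
      intro k hk
      have h1 : (⟨k, hk⟩ : K) ^ Nat.card K = 1 := pow_card_eq_one'
      rcases hK2 with h2 | h2
      · rw [h2, pow_one] at h1
        have : k = 1 := congrArg Subtype.val h1
        rw [this, one_mul]
      · rw [h2, pow_two] at h1
        exact congrArg Subtype.val h1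
    have hcomm : ∀ g : Gp, (g.2 = 0 ∨ g.2 = 2 ∨ g.2 = 4 ∨ g.2 = 6) → ∀ k ∈ K,
        g * k * g⁻¹ = k := by
      intro g hg k hk
      have h1 := hsq k hk
      have h2 : k.1 + act k.2 k.1 = 0 := congrArg Prod.fst h1
      have h3 : k.2 + k.2 = 0 := congrArg Prod.snd h1
      have h4 := comm_of_sq k g h2 h3 hg
      have h6 : g * k = k * g := Prod.ext h4 (add_comm _ _)
      rw [h6, mul_inv_cancel_right]
    have hkap : ∀ g : Gp, (g.2 = 0 ∨ g.2 = 2 ∨ g.2 = 4 ∨ g.2 = 6) → kap K g = 1 := by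
      intro g hg
      have h1 := kap_mul K g
      have h2 : mm K g = Nat.card K := by
        rw [mm_conj]
        refine Nat.card_congr (Equiv.subtypeEquivRight fun x => ?_)
        constructor
        · exact fun h => h.1
        · intro hx
          exact ⟨hx, by rw [hcomm g hg x hx]; exact hx⟩
      rw [h2] at h1
      exact Nat.eq_of_mul_eq_mul_right hKpos (by rw [h1, one_mul])
    have h1 : ∑ g : Gp, (if (g.2 = 0 ∨ g.2 = 2 ∨ g.2 = 4 ∨ g.2 = 6) then 0 else
        (-(Real.log 2 / 4))) ≤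
        ∑ g : Gp, Real.log (cc (kap K g)) / ((kap K g : ℝ) * Nat.card K) := by
      refine Finset.sum_le_sum fun g _ => ?_
      split_ifs with hg
      · rw [hkap g hg, cc_one, Real.log_one, zero_div]
      · rcases hK2 with h2 | h2
        · have h3 := kap_mul K g
          have h4 := kap_pos K g
          rw [h2] at h3
          have h6 : kap K g = 1 := Nat.eq_one_of_mul_eq_one_right h3
          rw [h6, cc_one, Real.log_one, zero_div]
          linarith
        · refine le_trans ?_ (term_ge K h g)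
          rw [h2]
          norm_num
    refine le_trans ?_ h1
    rw [← Finset.sum_filter_add_sum_filter_not Finset.univ
      (fun g : Gp => (g.2 = 0 ∨ g.2 = 2 ∨ g.2 = 4 ∨ g.2 = 6))]
    rw [Finset.sum_congr rfl (g := fun _ => (0 : ℝ)), Finset.sum_const_zero, zero_add]
    · rw [Finset.sum_congr rfl (g := fun _ => -(Real.log 2 / 4)), Finset.sum_const]
      · have hc : (Finset.univ.filter fun g : Gp =>
            ¬(g.2 = 0 ∨ g.2 = 2 ∨ g.2 = 4 ∨ g.2 = 6)).card = 64 := by
          have h1 := Finset.card_filter_add_card_filter_not (s := (Finset.univ : Finset Gp))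
            (fun g : Gp => (g.2 = 0 ∨ g.2 = 2 ∨ g.2 = 4 ∨ g.2 = 6))
          have h2 : (Finset.univ : Finset Gp).card = 128 := rfl
          rw [card_even, h2] at h1
          omega
        rw [hc, nsmul_eq_mul]
        push_cast
        linarith
      · intro g hg
        rw [if_neg (Finset.mem_filter.mp hg).2]
    · intro g hg
      rw [if_pos (Finset.mem_filter.mp hg).2]

lemma log_lt : Real.log (transversalProb H0) < -(16 * Real.log 2) := by
  rw [log_H0, cc_two, cc_four]
  have h1 : Real.log (1 / 2) = -Real.log 2 := by rw [one_div, Real.log_inv]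
  have h2 : Real.log (3 / 32) < -(3 * Real.log 2) := by
    have : -(3 * Real.log 2) = Real.log (1 / 8) := by
      rw [one_div, Real.log_inv, show (8 : ℝ) = 2 ^ 3 by norm_num, Real.log_pow]
      norm_num
    rw [this]
    exact Real.log_lt_log (by norm_num) (by norm_num)
  rw [h1]
  linarith

end Gp

/-- There is a group of order 128 in which no cyclic `p`-subgroup `H` with `p` dividing the group
order and `(H : core H) ≤ p` attains the transversal probability. -/
theorem result : ∃ (G : Type) (_ : Group G), Nat.card G = 128 ∧ Finite G ∧ Nontrivial G ∧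
    ∀ p : ℕ, p.Prime → p ∣ Nat.card G → ∀ H : Subgroup G, IsCyclic H → IsPGroup p H →
      transversalProb H = tp G → p < H.normalCore.relIndex H := by
  refine ⟨Gp, Gp.instGroup, Gp.card_Gp, inferInstance, ?_, ?_⟩
  · rw [← Finite.one_lt_card_iff_nontrivial, Gp.card_Gp]
    norm_num
  · intro p hp hdvd H _ _ hH
    rw [Gp.card_Gp, show 128 = 2 ^ 7 by norm_num] at hdvd
    have hp2 : p = 2 := (Nat.prime_dvd_prime_iff_eq hp Nat.prime_two).mp
      (hp.dvd_of_dvd_pow hdvd)
    subst hp2
    by_contra hcon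
    have h1 := Gp.log_ge H (by omega)
    have h2 : transversalProb H ≤ transversalProb Gp.H0 := by
      rw [hH]
      exact ciInf_le (Set.finite_range _).bddBelow Gp.H0
    have h3 := Real.log_le_log (prob_pos H) h2
    have h4 := Gp.log_lt
    linarith

end Pool.Agent.Results.MP_443384_al.TransversalCounterexample
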